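import Pool.Agent.H546.CFfin

set_option autoImplicit false

/-!
# `∑ C(2k,k)² C(3k,k) / 15^{3k}` modulo `p²`

The proof: the sum is the square of a Legendre polynomial modulo `p²` (Clausen), the elliptic curve
`y² = x³ + (6A-27)x + (A²-18A+54)`, `A = 2 - 22/(5√5)`, has an isogeny of degree `5` and one of degree `3` to its
conjugate; over the Witt vectors of an algebraic closure of `ZMod p` the combination of these isogenies of degree `p` is a
lift of the Frobenius, and comparing the expansions of this lift modulo `p²` gives the value of the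
Legendre polynomial modulo `p²`. For the primes in the last case the Hasse invariant vanishes.
-/

open Finset

namespace Pool.Agent.Results.MP_cf6277_nt.Fifteen

/-- the sum `S(p) = ∑_{k<p} C(2k,k)² C(3k,k) / 15^{3k}` -/
def S (p : ℕ) : ℚ := ∑ k ∈ range p, (((2 * k).choose k : ℚ) ^ 2 * ((3 * k).choose k : ℚ)) / 15 ^ (3 * k)

/-- congruence modulo `p²` of rational numbers: `(a - b) / p²` has denominator prime to `p` -/
def Cong (p : ℕ) (a b : ℚ) : Prop := p.Coprime ((a - b) / (p : ℚ) ^ 2).den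

theorem result (p : ℕ) (hp : p.Prime) (h5 : 5 < p) :
    (∀ x y : ℤ, (p % 15 = 1 ∨ p % 15 = 4) → (p : ℤ) = x ^ 2 + 15 * y ^ 2 →
      Cong p (S p) (4 * x ^ 2 - 2 * p)) ∧
    (∀ x y : ℤ, (p % 15 = 2 ∨ p % 15 = 8) → (p : ℤ) = 3 * x ^ 2 + 5 * y ^ 2 →
      Cong p (S p) (2 * p - 12 * x ^ 2)) ∧
    ((p % 15 = 7 ∨ p % 15 = 11 ∨ p % 15 = 13 ∨ p % 15 = 14) → Cong p (S p) 0) := by
  haveI : Fact p.Prime := ⟨hp⟩
  have hM : ¬ (p : ℤ) ∣ 3375 := by
    have := Pool.Agent.H546.ndvd_of_primes p (n := 3375) (l := [3, 3, 3, 5, 5, 5]) (by simp; norm_num)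
      (by norm_num) (by simp; omega)
    exact_mod_cast this
  have hu : IsUnit ((3375 : ℤ) : ZMod (p ^ 2)) := by
    rw [ZMod.coe_int_isUnit_iff_isCoprime]
    have h1 : IsCoprime (p : ℤ) 3375 := (Nat.prime_iff_prime_int.mp hp).coprime_iff_not_dvd.mpr hM
    push_cast
    exact h1.pow_left
  obtain ⟨wi, hwi⟩ := hu.exists_right_inv
  have tr : ∀ E : ℤ, ∑ k ∈ range p, (k.centralBinom : ZMod (p ^ 2)) *
      ((Pool.Agent.Q267.MW.u3 k : ℕ) : ZMod (p ^ 2)) * wi ^ k = ((E : ℤ) : ZMod (p ^ 2)) →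
      Cong p (S p) (E : ℚ) := by
    intro E hE
    have h := Pool.Agent.H546.den_of_R (p := p) (fun k => ((k.centralBinom * Pool.Agent.Q267.MW.u3 k : ℕ) : ℤ))
      3375 hM wi hwi E (by rw [← hE]; refine sum_congr rfl fun k _ => ?_; push_cast; rfl)
    unfold Cong
    rw [Nat.Prime.coprime_iff_not_dvd hp]
    have e : S p = ∑ k ∈ range p, (((k.centralBinom * Pool.Agent.Q267.MW.u3 k : ℕ) : ℤ) : ℚ) /
        ((3375 : ℤ) : ℚ) ^ k := by
      unfold S
      refine sum_congr rfl fun k _ => ?_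
      have h15 : (15 : ℚ) ^ (3 * k) = ((3375 : ℤ) : ℚ) ^ k := by
        rw [pow_mul]; norm_num
      rw [h15, Nat.centralBinom, Pool.Agent.Q267.MW.u3]
      push_cast
      ring
    rw [e]
    exact h
  obtain ⟨h1, h2, h3⟩ := Pool.Agent.H546.cf_main p h5 hwi
  refine ⟨fun x y hc hxy => ?_, fun x y hc hxy => ?_, fun hc => ?_⟩
  · have := tr _ (h1 x y hc hxy)
    push_cast at this
    exact this
  · have := tr _ (h2 x y hc hxy)
    push_cast at this
    exact this
  · have := tr 0 (by rw [h3 hc]; push_cast; rfl)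
    push_cast at this
    exact this

end Pool.Agent.Results.MP_cf6277_nt.Fifteen
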